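import Pool.Agent.MP_f007e6_nt.Mg.Main

open Filter Pool.Agent.MP_f007e6_nt

namespace Pool.Agent.Results.MP_f007e6_nt.PrescribedOrders

/-- There is one fully divergent basic sequence `Q` with `q_n → ∞` such that for every set `A` of
orders some real number is `Q`-normal of order `k` exactly for `k ∈ A`. -/
theorem result :
    ∃ q : ℕ → ℕ, IsBasic q ∧ Tendsto q atTop atTop ∧ FullyDivergent q ∧
      ∀ A : Set ℕ, ∃ x : ℝ, ∀ k : ℕ, 1 ≤ k → (NormalOfOrder q k x ↔ k ∈ A) :=
  ⟨qq, qq_basic, qq_tendsto, qq_fullyDivergent, prescribed_orders⟩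

end Pool.Agent.Results.MP_f007e6_nt.PrescribedOrders
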